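import Pool.Agent.ShorBoth.Bridge
import Pool.Agent.ShorBoth.LinFinal

/-!
Pairs of polynomials of degree at most one in `n`: Shor's pair is the only admissible one.
-/

set_option autoImplicit false

namespace Pool.Agent.Results.MP_97c21f_co.LinearInN

open MvPolynomial Pool.Agent.ShorRec Pool.Agent.ShorBoth

/-- Let `P`, `Q` be complex polynomials in `X 0 = m`, `X 1 = n` of degree at most one in `n` and of
any degree in `m`. The pair `(P, Q)` is admissible if and only if `P = m` and `Q = m + n`. -/
theorem result (P Q : MvPolynomial (Fin 2) ℂ) (hP : P.degreeOf 1 ≤ 1) (hQ : Q.degreeOf 1 ≤ 1) :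
    Admissible P Q ↔ P = X 0 ∧ Q = X 0 + X 1 := by
  constructor
  · intro h
    obtain ⟨h1, h2⟩ := lin_unique (adm_of_admissible h) (toBi_natDegree P 1 hP)
      (toBi_natDegree Q 1 hQ)
    constructor
    · apply toBi_injective
      rw [h1]
      simp [toBi]
    · apply toBi_injective
      rw [h2, map_add]
      simp [toBi]
  · rintro ⟨rfl, rfl⟩
    exact admissible_shor

end Pool.Agent.Results.MP_97c21f_co.LinearInN
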