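import Pool.Agent.ShorRec.Nonneg

/-!
Pairs of polynomials of arbitrary degree with nonnegative values: Shor's pair `P = m`,
`Q = m + n` is the only admissible one whose triangle has no zero entry beyond some row.
-/

namespace Pool.Agent.Results.MP_97c21f_co.NonnegPairs

open MvPolynomial Pool.Agent.ShorRec

/-- Let `P`, `Q` be complex polynomials of any degree in `X 0 = m`, `X 1 = n` such that
`P (m, n)` is a nonnegative real for `1 ≤ n ≤ m` and `Q (m, n)` is a nonnegative real for
`1 ≤ n ≤ m + 1`, and such that from some row on no entry `S m n`, `1 ≤ n ≤ m`, is zero. Then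
`(P, Q)` is admissible if and only if `P = m` and `Q = m + n`. -/
theorem result (P Q : MvPolynomial (Fin 2) ℂ)
    (hP : ∀ m n : ℕ, 1 ≤ n → n ≤ m → NonnegReal (val P m n))
    (hQ : ∀ m n : ℕ, 1 ≤ n → n ≤ m + 1 → NonnegReal (val Q m n))
    (N : ℕ) (hS : ∀ m n : ℕ, N ≤ m → 1 ≤ n → n ≤ m → S P Q m n ≠ 0) :
    Admissible P Q ↔ P = X 0 ∧ Q = X 0 + X 1 := by
  constructor
  · intro h
    exact nonneg_unique ⟨hP, hQ⟩ hS h
  · rintro ⟨rfl, rfl⟩
    exact admissible_shor

end Pool.Agent.Results.MP_97c21f_co.NonnegPairs
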