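import Pool.Agent.ShorBoth.Bridge
import Pool.Agent.ShorBoth.Main

/-!
In an admissible pair one of the two polynomials does not involve the variable `n`.
-/

set_option autoImplicit false

namespace Pool.Agent.Results.MP_97c21f_co.OneWithoutN

open Pool.Agent.ShorRec Pool.Agent.ShorBoth

/-- Let `P`, `Q` be complex polynomials of any degree in `X 0 = m`, `X 1 = n`. If the pair
`(P, Q)` is admissible, then `P` or `Q` does not involve the variable `n`. -/
theorem result (P Q : MvPolynomial (Fin 2) ℂ) (h : Admissible P Q) :
    P.degreeOf 1 = 0 ∨ Q.degreeOf 1 = 0 := by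
  by_contra hcon
  push Not at hcon
  exact not_adm (toBi P) (toBi Q) (exists_coeff P hcon.1) (exists_coeff Q hcon.2)
    (adm_of_admissible h)

end Pool.Agent.Results.MP_97c21f_co.OneWithoutN
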